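import Pool.Agent.Helper97.TI.Defs

set_option autoImplicit false
open MvPolynomial

namespace TI

section EX
variable {κ : ℕ} {Q : Type} [AddCommGroup Q] [Module (RR κ) Q]

theorem MOV_mem {B : Submodule (RR κ) Q} {a : RR κ} {m : Q} :
    m ∈ B ⊔ mulTop Q a ↔ ∃ b ∈ B, ∃ q : Q, b + a • q = m := by
  constructor
  · intro h
    obtain ⟨b, hb, x, hx, hbx⟩ := Submodule.mem_sup.1 h
    obtain ⟨q, rfl⟩ := mem_mulTop.1 hx
    exact ⟨b, hb, q, hbx⟩
  · rintro ⟨b, hb, q, rfl⟩
    exact Submodule.add_mem _ (Submodule.mem_sup_left hb)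
      (Submodule.mem_sup_right (mem_mulTop.2 ⟨q, rfl⟩))

theorem MOV_swap {B : Submodule (RR κ) Q} {a b : RR κ} (ha : Reg a B)
    (hb : Reg b (B ⊔ mulTop Q a)) : Reg a (B ⊔ mulTop Q b) := by
  intro u hu
  obtain ⟨b₀, hb₀, v, hv⟩ := MOV_mem.1 hu
  have h1 : b • v ∈ B ⊔ mulTop Q a := by
    rw [MOV_mem]
    refine ⟨-b₀, B.neg_mem hb₀, u, ?_⟩
    rw [← hv]; abel
  obtain ⟨b₁, hb₁, v', hv'⟩ := MOV_mem.1 (hb v h1)
  have h2 : a • (u - b • v') ∈ B := by
    have : a • (u - b • v') = b₀ + b • b₁ := by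
      rw [smul_sub, ← hv, ← hv', smul_add, smul_comm a b]; abel
    rw [this]
    exact B.add_mem hb₀ (B.smul_mem _ hb₁)
  have h3 := ha _ h2
  rw [MOV_mem]
  exact ⟨u - b • v', h3, v', by abel⟩

theorem MOV_mulTop_zero : mulTop Q (0 : RR κ) = ⊥ := by
  rw [eq_bot_iff]
  intro m hm
  obtain ⟨q, rfl⟩ := mem_mulTop.1 hm
  simp

/-- MOV: removing the `i`-th entry of a regular sequence, that entry stays regular modulo the
others.  `c'` agrees with `c` except at `i`, where it is `0`. -/
theorem reg_move {B₀ : Submodule (RR κ) Q} (c : ℕ → RR κ) (i g : ℕ) (hi : i < g)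
    (hreg : ∀ j < g, Reg (c j) (Bm B₀ c j)) :
    Reg (c i) (Bm B₀ (Function.update c i 0) g) ∧
      Bm B₀ c g = Bm B₀ (Function.update c i 0) g ⊔ mulTop Q (c i) := by
  induction g with
  | zero => omega
  | succ g ih =>
    rcases Nat.lt_or_ge i g with h | h
    · obtain ⟨h1, h2⟩ := ih h (fun j hj => hreg j (by omega))
      have hne : g ≠ i := by omega
      have e1 : Bm B₀ (Function.update c i 0) (g + 1) =
          Bm B₀ (Function.update c i 0) g ⊔ mulTop Q (c g) := by
        rw [Bm_succ, Function.update_of_ne hne]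
      constructor
      · rw [e1]
        apply MOV_swap h1
        rw [← h2]
        exact hreg g (by omega)
      · rw [e1, Bm_succ, h2, sup_right_comm]
    · have hig : i = g := by omega
      subst hig
      have e0 : Bm B₀ (Function.update c i 0) i = Bm B₀ c i :=
        Bm_congr i (fun j hj => Function.update_of_ne (by omega) _ _)
      have e1 : Bm B₀ (Function.update c i 0) (i + 1) = Bm B₀ c i := by
        rw [Bm_succ, Function.update_self, MOV_mulTop_zero, sup_bot_eq, e0]
      rw [e1]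
      exact ⟨hreg i (by omega), rfl⟩

end EX

end TI
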