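import Pool.Agent.Helper97.TI.Defs

set_option autoImplicit false
open MvPolynomial

namespace TI

section GR
variable {κ : ℕ} {Q : Type} [AddCommGroup Q] [Module ℂ Q] [Module (RR κ) Q]
  [IsScalarTower ℂ (RR κ) Q] {ρ : Q →ₗ[ℂ] Q}

theorem GR1_C (c : ℂ) (q : Q) : (C c : RR κ) • q = c • q := by
  rw [← mul_one (C c : RR κ), ← smul_eq_C_mul, smul_assoc, one_smul]

/-- semilinearity over the scaling substitution -/
theorem GR1_semi (hρ : IsScal κ ρ) (a : RR κ) : ∀ q : Q,
    ρ (a • q) = (aeval (fun i => (C (2:ℂ) : RR κ) * X i) a : RR κ) • ρ q := by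
  induction a using MvPolynomial.induction_on with
  | C c =>
    intro q
    rw [GR1_C, map_smul]
    rw [aeval_C, algebraMap_eq, GR1_C]
  | add p p' h1 h2 =>
    intro q
    rw [add_smul, map_add, h1, h2, map_add, add_smul]
  | mul_X p i h =>
    intro q
    rw [mul_smul, h, hρ, map_mul, aeval_X, mul_smul, mul_smul, GR1_C]

theorem GR1_scale {a : RR κ} {e : ℕ} (ha : a.IsHomogeneous e) :
    (aeval (fun i => (C (2:ℂ) : RR κ) * X i) a : RR κ) = C ((2:ℂ) ^ e) * a := by
  conv_lhs => rw [a.as_sum]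
  conv_rhs => rw [a.as_sum]
  rw [map_sum, Finset.mul_sum]
  apply Finset.sum_congr rfl
  intro α hα
  have hdeg : Finsupp.degree α = e := by
    by_contra hne
    exact (mem_support_iff.1 hα) (ha.coeff_eq_zero hne)
  rw [aeval_monomial, algebraMap_eq]
  rw [Finsupp.prod]
  simp only [mul_pow]
  rw [Finset.prod_mul_distrib, Finset.prod_pow_eq_pow_sum]
  have : (∑ i ∈ α.support, α i) = e := by rw [← hdeg]; rfl
  rw [this, monomial_eq, C_pow, Finsupp.prod]
  ring

/-- the operator identity -/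
theorem GR1_op (hρ : IsScal κ ρ) {a : RR κ} {e : ℕ} (ha : a.IsHomogeneous e) (q : Q) :
    ρ (a • q) = (2:ℂ) ^ e • (a • ρ q) := by
  rw [GR1_semi hρ, GR1_scale ha, mul_smul, GR1_C]

/-- GR1a: homogeneous polynomials shift weights -/
theorem hm_smul (hρ : IsScal κ ρ) {a : RR κ} {e : ℕ} (ha : a.IsHomogeneous e) {w : ℕ} {m : Q}
    (hm : Hm ρ w m) : Hm ρ (w + e) (a • m) := by
  unfold Hm at hm ⊢
  rw [GR1_op hρ ha, hm, ← GR1_C (κ := κ) ((2:ℂ) ^ w) m, smul_comm a, GR1_C, smul_smul, pow_add,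
    mul_comm]

theorem GR1_smul_mem (B : Submodule (RR κ) Q) (c : ℂ) {q : Q} (hq : q ∈ B) : c • q ∈ B := by
  rw [← GR1_C (κ := κ)]
  exact B.smul_mem _ hq

theorem GR1_comp {B : Submodule (RR κ) Q} (hB : Stab ρ B) (k : ℕ) (s : Finset ℕ) :
    ∀ f : ℕ → Q, (∀ w, Hm ρ (w + k) (f w)) → (∑ w ∈ s, f w) ∈ B → ∀ w ∈ s, f w ∈ B := by
  classical
  induction s using Finset.induction_on with
  | empty => intro f _ _ w hw; simp at hw
  | insert w₀ s hw₀ ih =>
    intro f hf hs
    have h1 := hB _ hs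
    have h2 := B.sub_mem h1 (GR1_smul_mem B ((2:ℂ) ^ (w₀ + k)) hs)
    have h3 : ρ (∑ w ∈ insert w₀ s, f w) - (2:ℂ) ^ (w₀ + k) • ∑ w ∈ insert w₀ s, f w =
        ∑ w ∈ s, ((2:ℂ) ^ (w + k) - (2:ℂ) ^ (w₀ + k)) • f w := by
      rw [map_sum, Finset.smul_sum, ← Finset.sum_sub_distrib, Finset.sum_insert hw₀]
      rw [hf w₀, sub_self, zero_add]
      apply Finset.sum_congr rfl
      intro w _
      rw [hf w, sub_smul]
    rw [h3] at h2
    have h4 := ih (fun w => ((2:ℂ) ^ (w + k) - (2:ℂ) ^ (w₀ + k)) • f w) (by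
      intro w
      have := hf w
      unfold Hm at this ⊢
      rw [map_smul, this, smul_comm]) h2
    have h5 : ∀ w ∈ s, f w ∈ B := by
      intro w hw
      have hne : (2:ℂ) ^ (w + k) - (2:ℂ) ^ (w₀ + k) ≠ 0 := by
        intro h
        have h6 : (2:ℂ) ^ (w + k) = (2:ℂ) ^ (w₀ + k) := sub_eq_zero.1 h
        have h7 : (2:ℕ) ^ (w + k) = 2 ^ (w₀ + k) := by exact_mod_cast h6
        have h8 := Nat.pow_right_injective (le_refl 2) h7
        have h9 : w = w₀ := by omega
        exact hw₀ (h9 ▸ hw)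
      have := GR1_smul_mem B ((2:ℂ) ^ (w + k) - (2:ℂ) ^ (w₀ + k))⁻¹ (h4 w hw)
      rwa [smul_smul, inv_mul_cancel₀ hne, one_smul] at this
    intro w hw
    rcases Finset.mem_insert.1 hw with rfl | hw
    · rw [Finset.sum_insert hw₀] at hs
      have := B.sub_mem hs (B.sum_mem h5)
      rwa [add_sub_cancel_right] at this
    · exact h5 w hw

/-- GR1b: homogeneous components of an element of a stable submodule are in it -/
theorem comp_mem {B : Submodule (RR κ) Q} (hB : Stab ρ B) (f : ℕ →₀ Q)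
    (hf : ∀ w, Hm ρ w (f w)) (hs : (f.sum fun _ v => v) ∈ B) (w : ℕ) : f w ∈ B := by
  by_cases hw : w ∈ f.support
  · exact GR1_comp hB 0 f.support f hf hs w hw
  · rw [Finsupp.notMem_support_iff.1 hw]
    exact B.zero_mem

theorem GR1_span (hρ : IsScal κ ρ) (n : ℕ) (a : RR κ) : ∀ m : Q, (∃ w, n ≤ w ∧ Hm ρ w m) →
    a • m ∈ Submodule.span ℂ {m : Q | ∃ w, n ≤ w ∧ Hm ρ w m} := by
  induction a using MvPolynomial.induction_on with
  | C c =>
    intro m hm
    rw [GR1_C]
    exact Submodule.smul_mem _ _ (Submodule.subset_span hm)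
  | add p q h1 h2 =>
    intro m hm
    rw [add_smul]
    exact Submodule.add_mem _ (h1 m hm) (h2 m hm)
  | mul_X p i h =>
    rintro m ⟨w, hw, hm⟩
    rw [mul_smul]
    exact h _ ⟨w + 1, by omega, hm_smul hρ (isHomogeneous_X ℂ i) hm⟩

theorem GR1_span2 (hρ : IsScal κ ρ) (n : ℕ) (a : RR κ) {x : Q}
    (hx : x ∈ Submodule.span ℂ {m : Q | ∃ w, n ≤ w ∧ Hm ρ w m}) :
    a • x ∈ Submodule.span ℂ {m : Q | ∃ w, n ≤ w ∧ Hm ρ w m} := by
  induction hx using Submodule.span_induction with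
  | mem x hx => exact GR1_span hρ n a x hx
  | zero => rw [smul_zero]; exact Submodule.zero_mem _
  | add x y _ _ hx hy => rw [smul_add]; exact Submodule.add_mem _ hx hy
  | smul c x _ hx =>
    rw [← GR1_C (κ := κ) c x, smul_comm, GR1_C]; exact Submodule.smul_mem _ _ hx

/-- GR1c: decomposition -/
theorem decomp (hρ : IsScal κ ρ) {n : ℕ} (hg : WGen κ ρ n) (m : Q) :
    ∃ f : ℕ →₀ Q, (∀ w, Hm ρ w (f w)) ∧ (∀ w, w < n → f w = 0) ∧ m = f.sum fun _ v => v := by
  classical
  have h1 : m ∈ Submodule.span ℂ {m : Q | ∃ w, n ≤ w ∧ Hm ρ w m} := by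
    have hm : m ∈ Submodule.span (RR κ) {m : Q | ∃ w, n ≤ w ∧ Hm ρ w m} := by
      rw [hg]; trivial
    induction hm using Submodule.span_induction with
    | mem x hx => exact Submodule.subset_span hx
    | zero => exact Submodule.zero_mem _
    | add x y _ _ hx hy => exact Submodule.add_mem _ hx hy
    | smul a x _ hx => exact GR1_span2 hρ n a hx
  induction h1 using Submodule.span_induction with
  | mem x hx =>
    obtain ⟨w, hw, hx⟩ := hx
    refine ⟨Finsupp.single w x, ?_, ?_, ?_⟩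
    · intro w'
      by_cases h : w = w'
      · subst h; simpa using hx
      · rw [Finsupp.single_eq_of_ne (Ne.symm h)]
        unfold Hm; simp
    · intro w' hw'
      exact Finsupp.single_eq_of_ne (by omega)
    · simp
  | zero => exact ⟨0, fun w => by unfold Hm; simp, fun _ _ => rfl, by simp⟩
  | add x y _ _ hx hy =>
    obtain ⟨f, hf1, hf2, rfl⟩ := hx
    obtain ⟨g, hg1, hg2, rfl⟩ := hy
    refine ⟨f + g, ?_, ?_, ?_⟩
    · intro w
      have h1 := hf1 w
      have h2 := hg1 w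
      unfold Hm at *
      rw [Finsupp.add_apply, map_add, h1, h2, smul_add]
    · intro w hw
      rw [Finsupp.add_apply, hf2 w hw, hg2 w hw, add_zero]
    · rw [Finsupp.sum_add_index' (fun _ => rfl) (fun _ _ _ => rfl)]
  | smul c x _ hx =>
    obtain ⟨f, hf1, hf2, rfl⟩ := hx
    refine ⟨c • f, ?_, ?_, ?_⟩
    · intro w
      have h1 := hf1 w
      unfold Hm at *
      rw [Finsupp.smul_apply, map_smul, h1, smul_comm]
    · intro w hw
      rw [Finsupp.smul_apply, hf2 w hw, smul_zero]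
    · rw [Finsupp.sum_smul_index' (fun _ => rfl), Finsupp.smul_sum]

end GR

end TI
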