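import Pool.Agent.Helper28.TI.GR1

set_option autoImplicit false
open MvPolynomial

namespace TI

section GR
variable {κ : ℕ} {Q : Type} [AddCommGroup Q] [Module ℂ Q] [Module (RR κ) Q]
  [IsScalarTower ℂ (RR κ) Q] {ρ : Q →ₗ[ℂ] Q}

theorem GR2_stab_add (hρ : IsScal κ ρ) {B : Submodule (RR κ) Q} (hB : Stab ρ B)
    {a : RR κ} {e : ℕ} (ha : a.IsHomogeneous e) : Stab ρ (B ⊔ mulTop Q a) := by
  intro m hm
  obtain ⟨b, hb, x, hx, rfl⟩ := Submodule.mem_sup.1 hm
  obtain ⟨q, rfl⟩ := mem_mulTop.1 hx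
  rw [map_add]
  refine Submodule.add_mem _ (Submodule.mem_sup_left (hB b hb)) (Submodule.mem_sup_right ?_)
  rw [GR1_op hρ ha]
  exact GR1_smul_mem _ _ (mem_mulTop.2 ⟨_, rfl⟩)

/-- GR2a -/
theorem stab_Bm (hρ : IsScal κ ρ) {B₀ : Submodule (RR κ) Q} (hB : Stab ρ B₀)
    {c : ℕ → RR κ} {e : ℕ → ℕ} (hc : ∀ j, (c j).IsHomogeneous (e j)) (j : ℕ) :
    Stab ρ (Bm B₀ c j) := by
  induction j with
  | zero => exact hB
  | succ j ih => exact GR2_stab_add hρ ih (hc j)

/-- GR2b -/
theorem mem_add (hρ : IsScal κ ρ) {n : ℕ} (hg : WGen κ ρ n) {B : Submodule (RR κ) Q}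
    (hB : Stab ρ B) {a : RR κ} {e : ℕ} (ha : a.IsHomogeneous e) {w : ℕ} {m : Q} (hm : Hm ρ w m)
    (hmem : m ∈ B ⊔ mulTop Q a) :
    m ∈ B ∨ ∃ w' q, w' + e = w ∧ n ≤ w' ∧ Hm ρ w' q ∧ m - a • q ∈ B := by
  classical
  obtain ⟨b, hb, x, hx, hbx⟩ := Submodule.mem_sup.1 hmem
  obtain ⟨q, rfl⟩ := mem_mulTop.1 hx
  obtain ⟨f, hf1, hf2, rfl⟩ := decomp hρ hg q
  -- the element `m - a • ∑ f` is in `B`
  have h1 : m - a • (f.sum fun _ v => v) ∈ B := by
    rw [← hbx, add_sub_cancel_right]; exact hb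
  -- components in weights
  let g : ℕ → Q := fun v => (if v = w then m else 0) - (if e ≤ v then a • f (v - e) else 0)
  have hg1 : ∀ v, Hm ρ (v + 0) (g v) := by
    intro v
    have e1 : Hm ρ v (if v = w then m else 0) := by
      split_ifs with h
      · rw [h]; exact hm
      · unfold Hm; simp
    have e2 : Hm ρ v (if e ≤ v then a • f (v - e) else 0) := by
      split_ifs with h
      · have := hm_smul hρ ha (hf1 (v - e))
        rwa [Nat.sub_add_cancel h] at this
      · unfold Hm; simp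
    unfold Hm at *
    change ρ ((if v = w then m else 0) - (if e ≤ v then a • f (v - e) else 0)) = _
    rw [map_sub, e1, e2, ← smul_sub]
    rfl
  let s : Finset ℕ := insert w (f.support.map ⟨fun x => x + e, add_left_injective e⟩)
  have hsum : (∑ v ∈ s, g v) = m - a • (f.sum fun _ v => v) := by
    change (∑ v ∈ s, ((if v = w then m else 0) - (if e ≤ v then a • f (v - e) else 0))) = _
    rw [Finset.sum_sub_distrib]
    congr 1
    · rw [Finset.sum_ite_eq' s w (fun _ => m)]
      rw [if_pos (Finset.mem_insert_self _ _)]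
    · have hsub : f.support.map ⟨fun x => x + e, add_left_injective e⟩ ⊆ s :=
        Finset.subset_insert _ _
      rw [← Finset.sum_subset hsub]
      · rw [Finset.sum_map, Finsupp.sum, Finset.smul_sum]
        apply Finset.sum_congr rfl
        intro x _
        simp
      · intro v _ hv
        split_ifs with h
        · have : f (v - e) = 0 := by
            by_contra hne
            apply hv
            rw [Finset.mem_map]
            exact ⟨v - e, Finsupp.mem_support_iff.2 hne, Nat.sub_add_cancel h⟩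
          rw [this, smul_zero]
        · rfl
  have h2 := GR1_comp hB 0 s g hg1 (by rw [hsum]; exact h1) w (Finset.mem_insert_self _ _)
  have h3 : g w = m - (if e ≤ w then a • f (w - e) else 0) := by
    change (if w = w then m else 0) - _ = _
    rw [if_pos rfl]
  rw [h3] at h2
  by_cases hew : e ≤ w
  · rw [if_pos hew] at h2
    by_cases hn : w - e < n
    · left
      rw [hf2 _ hn, smul_zero, sub_zero] at h2
      exact h2
    · right
      exact ⟨w - e, f (w - e), Nat.sub_add_cancel hew, not_lt.1 hn, hf1 _, h2⟩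
  · left
    rwa [if_neg hew, sub_zero] at h2

/-- GR2c -/
theorem low_weight (hρ : IsScal κ ρ) {n : ℕ} (hg : WGen κ ρ n)
    {c : ℕ → RR κ} {e : ℕ → ℕ} (hc : ∀ j, (c j).IsHomogeneous (e j)) (he : ∀ j, 0 < e j) (r : ℕ)
    {w : ℕ} (hw : w ≤ n) {m : Q} (hm : Hm ρ w m) (hmem : m ∈ Bm (⊥ : Submodule (RR κ) Q) c r) :
    m = 0 := by
  induction r with
  | zero => exact (Submodule.mem_bot _).1 hmem
  | succ r ih =>
    have hst : Stab ρ (⊥ : Submodule (RR κ) Q) := by
      intro m hm
      rw [Submodule.mem_bot] at hm ⊢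
      rw [hm, map_zero]
    rcases mem_add hρ hg (stab_Bm hρ hst hc r) (hc r) hm hmem with h | ⟨w', q, h1, h2, -, -⟩
    · exact ih h
    · have := he r
      omega

end GR

end TI
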