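import Pool.Agent.Helper28.TI.GR2

set_option autoImplicit false
open MvPolynomial

namespace TI

section GR
variable {κ : ℕ} {Q : Type} [AddCommGroup Q] [Module ℂ Q] [Module (RR κ) Q]
  [IsScalarTower ℂ (RR κ) Q] {ρ : Q →ₗ[ℂ] Q}

omit [Module ℂ Q] [IsScalarTower ℂ (RR κ) Q] in
/-- modulo `B` a polynomial acts by its constant term on elements killed by the variables -/
theorem GR3_const {B : Submodule (RR κ) Q} {y : Q} (hy : ∀ i, (X i : RR κ) • y ∈ B) (a : RR κ) :
    (a - C (constantCoeff a)) • y ∈ B := by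
  induction a using MvPolynomial.induction_on with
  | C c => simp
  | add p q h1 h2 =>
    have : (p + q - C (constantCoeff (p + q))) • y =
        (p - C (constantCoeff p)) • y + (q - C (constantCoeff q)) • y := by
      rw [← add_smul, map_add, C_add]; ring_nf
    rw [this]
    exact B.add_mem h1 h2
  | mul_X p i _ =>
    have : (p * X i - C (constantCoeff (p * X i))) • y = p • ((X i : RR κ) • y) := by
      rw [map_mul, constantCoeff_X, mul_zero, C_0, sub_zero, mul_smul]
    rw [this]
    exact B.smul_mem _ (hy i)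

omit [Module ℂ Q] [IsScalarTower ℂ (RR κ) Q] in
theorem GR3_const0 {B : Submodule (RR κ) Q} {y : Q} (hy : ∀ i, (X i : RR κ) • y ∈ B) {a : RR κ}
    (ha : constantCoeff a = 0) : a • y ∈ B := by
  have := GR3_const hy a
  rwa [ha, C_0, sub_zero] at this

/-- elements of `B + span of socle elements of weight ≤ W` -/
theorem GR3_dec (B : Submodule (RR κ) Q) (W : ℕ) {x : Q}
    (hx : x ∈ Submodule.span (RR κ) {s : Q | ∃ w, w ≤ W ∧ Hm ρ w s ∧ IsSoc B s}) :
    ∃ f : ℕ →₀ Q, (∀ w, Hm ρ w (f w)) ∧ (∀ w, W < w → f w = 0) ∧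
      (∀ w i, (X i : RR κ) • f w ∈ B) ∧ x - (f.sum fun _ v => v) ∈ B := by
  classical
  induction hx using Submodule.span_induction with
  | mem x hx =>
    obtain ⟨w, hw, hx, hs⟩ := hx
    refine ⟨Finsupp.single w x, ?_, ?_, ?_, ?_⟩
    · intro w'
      by_cases h : w = w'
      · subst h; simpa using hx
      · rw [Finsupp.single_eq_of_ne (Ne.symm h)]
        unfold Hm; simp
    · intro w' hw'
      exact Finsupp.single_eq_of_ne (by omega)
    · intro w' i
      by_cases h : w = w'
      · subst h; simpa using hs.2 i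
      · rw [Finsupp.single_eq_of_ne (Ne.symm h)]
        simp
    · simp
  | zero =>
    exact ⟨0, fun w => by unfold Hm; simp, fun _ _ => rfl, fun _ _ => by simp, by simp⟩
  | add x y _ _ hx hy =>
    obtain ⟨f, hf1, hf2, hf3, hf4⟩ := hx
    obtain ⟨g, hg1, hg2, hg3, hg4⟩ := hy
    refine ⟨f + g, ?_, ?_, ?_, ?_⟩
    · intro w
      have h1 := hf1 w
      have h2 := hg1 w
      unfold Hm at *
      rw [Finsupp.add_apply, map_add, h1, h2, smul_add]
    · intro w hw
      rw [Finsupp.add_apply, hf2 w hw, hg2 w hw, add_zero]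
    · intro w i
      rw [Finsupp.add_apply, smul_add]
      exact B.add_mem (hf3 w i) (hg3 w i)
    · rw [Finsupp.sum_add_index' (fun _ => rfl) (fun _ _ _ => rfl)]
      have : x + y - ((f.sum fun _ v => v) + g.sum fun _ v => v) =
        (x - f.sum fun _ v => v) + (y - g.sum fun _ v => v) := by abel
      rw [this]
      exact B.add_mem hf4 hg4
  | smul a x _ hx =>
    obtain ⟨f, hf1, hf2, hf3, hf4⟩ := hx
    refine ⟨(constantCoeff a) • f, ?_, ?_, ?_, ?_⟩
    · intro w
      have h1 := hf1 w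
      unfold Hm at *
      rw [Finsupp.smul_apply, map_smul, h1, smul_comm]
    · intro w hw
      rw [Finsupp.smul_apply, hf2 w hw, smul_zero]
    · intro w i
      rw [Finsupp.smul_apply, ← GR1_C (κ := κ), smul_comm]
      exact B.smul_mem _ (hf3 w i)
    · rw [Finsupp.sum_smul_index' (fun _ => rfl)]
      have h5 : (f.sum fun _ v => constantCoeff a • v) = (C (constantCoeff a) : RR κ) •
          (f.sum fun _ v => v) := by
        rw [Finsupp.smul_sum]
        apply Finsupp.sum_congr
        intro w _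
        rw [GR1_C]
      rw [h5]
      have h6 : ∀ i, (X i : RR κ) • (f.sum fun _ v => v) ∈ B := by
        intro i
        rw [Finsupp.smul_sum]
        exact B.sum_mem (fun w _ => hf3 w i)
      have : a • x - (C (constantCoeff a) : RR κ) • (f.sum fun _ v => v) =
        a • (x - f.sum fun _ v => v) + (a - C (constantCoeff a)) • (f.sum fun _ v => v) := by
        rw [smul_sub, sub_smul]; abel
      rw [this]
      exact B.add_mem (B.smul_mem _ hf4) (GR3_const h6 a)

/-- GR3a: weights of socle elements are bounded -/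
theorem soc_bdd (hρ : IsScal κ ρ) [Module.Finite (RR κ) Q] {B : Submodule (RR κ) Q}
    (hB : Stab ρ B) : ∃ W : ℕ, ∀ w s, Hm ρ w s → IsSoc B s → w ≤ W := by
  classical
  have hN : IsNoetherian (RR κ) Q := isNoetherian_of_isNoetherianRing_of_finite (RR κ) Q
  let N : ℕ →o Submodule (RR κ) Q :=
    ⟨fun W => Submodule.span (RR κ) {s : Q | ∃ w, w ≤ W ∧ Hm ρ w s ∧ IsSoc B s}, by
      intro a b hab
      apply Submodule.span_mono
      rintro s ⟨w, hw, h⟩
      exact ⟨w, hw.trans hab, h⟩⟩
  obtain ⟨W, hW⟩ := monotone_stabilizes_iff_noetherian.2 hN N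
  refine ⟨W, fun w s hs hsoc => ?_⟩
  by_contra hlt
  push Not at hlt
  have h1 : s ∈ N w := Submodule.subset_span ⟨w, le_rfl, hs, hsoc⟩
  rw [← hW w hlt.le] at h1
  obtain ⟨f, hf1, hf2, hf3, hf4⟩ := GR3_dec B W h1
  apply hsoc.1
  have h2 := comp_mem hB (Finsupp.single w s - f) (by
    intro v
    have h3 := hf1 v
    have h4 : Hm ρ v (Finsupp.single w s v) := by
      by_cases h : w = v
      · subst h; simpa using hs
      · rw [Finsupp.single_eq_of_ne (Ne.symm h)]
        unfold Hm; simp
    unfold Hm at *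
    rw [Finsupp.sub_apply, map_sub, h3, h4, smul_sub]) (by
    rw [Finsupp.sum_sub_index (fun _ _ _ => rfl)]
    simpa using hf4) w
  rwa [Finsupp.sub_apply, hf2 w hlt, sub_zero, Finsupp.single_eq_same] at h2

/-- GR3b: if there is a socle element there is a homogeneous one -/
theorem soc_homog (hρ : IsScal κ ρ) {n : ℕ} (hg : WGen κ ρ n) {B : Submodule (RR κ) Q}
    (hB : Stab ρ B) (h : ∃ s, IsSoc B s) : ∃ w s, n ≤ w ∧ Hm ρ w s ∧ IsSoc B s := by
  classical
  obtain ⟨s, hs1, hs2⟩ := h
  obtain ⟨f, hf1, hf2, rfl⟩ := decomp hρ hg s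
  have hex : ∃ w, f w ∉ B := by
    by_contra hcon
    push Not at hcon
    exact hs1 (B.sum_mem (fun w _ => hcon w))
  obtain ⟨w, hw⟩ := hex
  refine ⟨w, f w, ?_, hf1 w, hw, fun i => ?_⟩
  · by_contra hlt
    push Not at hlt
    rw [hf2 w hlt] at hw
    exact hw B.zero_mem
  · have hsupp : w ∈ f.support := by
      rw [Finsupp.mem_support_iff]
      intro h0
      rw [h0] at hw
      exact hw B.zero_mem
    have h1 := hs2 i
    rw [Finsupp.smul_sum, Finsupp.sum] at h1
    exact GR1_comp hB 1 f.support (fun v => (X i : RR κ) • f v)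
      (fun v => hm_smul hρ (isHomogeneous_X ℂ i) (hf1 v)) h1 w hsupp

/-- GR3c: multiply up to the socle -/
theorem soc_of_pow (hρ : IsScal κ ρ) {B : Submodule (RR κ) Q} {w : ℕ} {m : Q} (hm : Hm ρ w m)
    (hmB : m ∉ B) (hL : ∃ L : ℕ, ∀ p ∈ mm κ ^ L, p • m ∈ B) :
    ∃ w' s, w ≤ w' ∧ Hm ρ w' s ∧ IsSoc B s := by
  obtain ⟨L, hL⟩ := hL
  induction L generalizing w m with
  | zero =>
    exfalso
    apply hmB
    have := hL 1 (by rw [pow_zero, Ideal.one_eq_top]; trivial)
    rwa [one_smul] at this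
  | succ L ih =>
    by_cases h : ∀ i, (X i : RR κ) • m ∈ B
    · exact ⟨w, m, le_rfl, hm, hmB, h⟩
    · push Not at h
      obtain ⟨i, hi⟩ := h
      obtain ⟨w', s, h1, h2, h3⟩ := ih (hm_smul hρ (isHomogeneous_X ℂ i) hm) hi (by
        intro p hp
        rw [← mul_smul]
        apply hL
        rw [pow_succ]
        exact Ideal.mul_mem_mul hp (Ideal.subset_span ⟨i, rfl⟩))
      exact ⟨w', s, by omega, h2, h3⟩

/-- GR3d: graded Nakayama -/
theorem nakayama (hρ : IsScal κ ρ) {n : ℕ} (hg : WGen κ ρ n) {B₀ : Submodule (RR κ) Q}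
    (hB : Stab ρ B₀) {c : ℕ → RR κ} {e : ℕ → ℕ} (hc : ∀ j, (c j).IsHomogeneous (e j))
    (he : ∀ j, 0 < e j) (r : ℕ) (h : Bm B₀ c r = ⊤) : B₀ = ⊤ := by
  classical
  have key : ∀ w m, Hm ρ w m → m ∈ B₀ := by
    intro w
    induction w using Nat.strong_induction_on with
    | _ w ih =>
      intro m hm
      have claim : ∀ r, m ∈ Bm B₀ c r → m ∈ B₀ := by
        intro r
        induction r with
        | zero => exact fun h => h
        | succ r ihr =>
          intro hmem
          rcases mem_add hρ hg (stab_Bm hρ hB hc r) (hc r) hm hmem with h | ⟨w', q, h1, -, h3, h4⟩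
          · exact ihr h
          · have hq : q ∈ B₀ := ih w' (by have := he r; omega) q h3
            apply ihr
            have h5 : c r • q ∈ Bm B₀ c r := (Bm B₀ c r).smul_mem _ (Bm_le B₀ c r hq)
            have := (Bm B₀ c r).add_mem h4 h5
            rwa [sub_add_cancel] at this
      apply claim r
      rw [h]; trivial
  rw [eq_top_iff]
  intro m _
  obtain ⟨f, hf1, -, rfl⟩ := decomp hρ hg m
  exact B₀.sum_mem (fun w _ => key w _ (hf1 w))

end GR

end TI
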